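import Pool.Agent.Helper97.SZ.Goals

/-!
# Project SZ (MP_126465_gt), packet LI: smooth integrals along a ray, a line and a half plane
-/

set_option autoImplicit false
set_option linter.unusedSectionVars false

open Set Filter Topology Metric MeasureTheory
open scoped ContDiff

namespace Pool.Agent.Helper8.SZ

open Pool.Agent.Helper91.SY Pool.Agent.Helper97.SZ

section
variable {E F : Type} [NormedAddCommGroup E] [NormedSpace ℝ E] [FiniteDimensional ℝ E]
  [NormedAddCommGroup F] [NormedSpace ℝ F] [FiniteDimensional ℝ F]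
  {α : Type} [TopologicalSpace α] [MeasurableSpace α] [BorelSpace α] [T2Space α]

theorem ce_sub {φ : α → E} (hφ : IsClosedEmbedding φ) (x : E) :
    IsClosedEmbedding (fun a => x - φ a) :=
  (Homeomorph.subLeft x).isClosedEmbedding.comp hφ

theorem int_comp {H : Type} [NormedAddCommGroup H] (ν : Measure α) [IsFiniteMeasureOnCompacts ν]
    {φ : α → E} (hφ : IsClosedEmbedding φ) {g : E → H} (hg : Continuous g)
    (hc : HasCompactSupport g) (x : E) : Integrable (fun a => g (x - φ a)) ν :=
  (hg.comp (ce_sub hφ x).continuous).integrable_of_hasCompactSupport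
    (hc.comp_isClosedEmbedding (ce_sub hφ x))

/-- smoothness of the integral -/
theorem gen_smooth (ν : Measure α) [IsFiniteMeasureOnCompacts ν]
    {φ : α → E} (hφ : IsClosedEmbedding φ) {f : E → F} (hf : ContDiff ℝ ∞ f)
    (hc : HasCompactSupport f) : ContDiff ℝ ∞ (fun x => ∫ a, f (x - φ a) ∂ν) := by
  let : MeasurableSpace E := borel E
  have : BorelSpace E := ⟨rfl⟩
  have hm : Measurable φ := hφ.continuous.measurable
  have : IsFiniteMeasureOnCompacts (Measure.map φ ν) := by
    refine ⟨fun K hK => ?_⟩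
    rw [Measure.map_apply hm hK.isClosed.measurableSet]
    exact (hφ.isCompact_preimage hK).measure_lt_top
  have h1 : LocallyIntegrable (fun _ : E => (1 : ℝ)) (Measure.map φ ν) := locallyIntegrable_const 1
  have h2 := hc.contDiff_convolution_right (ContinuousLinearMap.lsmul ℝ ℝ : ℝ →L[ℝ] F →L[ℝ] F)
    h1 hf
  have e : (fun x => ∫ a, f (x - φ a) ∂ν) = convolution (fun _ : E => (1 : ℝ)) f
      (ContinuousLinearMap.lsmul ℝ ℝ : ℝ →L[ℝ] F →L[ℝ] F) (Measure.map φ ν) := by
    funext x
    rw [convolution_def]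
    simp only [ContinuousLinearMap.lsmul_apply, one_smul]
    rw [integral_map hm.aemeasurable]
    have hcont : Continuous fun t : E => f (x - t) := hf.continuous.comp (continuous_const.sub continuous_id)
    exact hcont.aestronglyMeasurable
  rw [e]
  exact h2

/-- the derivative of the integral -/
theorem gen_deriv (ν : Measure α) [IsFiniteMeasureOnCompacts ν]
    {φ : α → E} (hφ : IsClosedEmbedding φ) {f : E → F} (hf : ContDiff ℝ ∞ f)
    (hc : HasCompactSupport f) (x u : E) :
    fderiv ℝ (fun x => ∫ a, f (x - φ a) ∂ν) x u = ∫ a, fderiv ℝ f (x - φ a) u ∂ν := by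
  have hfc : Continuous (fderiv ℝ f) := hf.continuous_fderiv (by simp)
  have hcf : HasCompactSupport (fderiv ℝ f) := hc.fderiv ℝ
  obtain ⟨M, hM⟩ := hcf.exists_bound_of_continuous hfc
  have hM0 : 0 ≤ M := (norm_nonneg _).trans (hM x)
  set K : Set E := (fun p : E × E => p.1 - p.2) '' (closedBall x 1 ×ˢ tsupport (fderiv ℝ f)) with hK
  have hKc : IsCompact K := ((isCompact_closedBall x 1).prod hcf).image
    (continuous_fst.sub continuous_snd)
  have hK'c : IsCompact (φ ⁻¹' K) := hφ.isCompact_preimage hKc
  have key : HasFDerivAt (fun x => ∫ a, f (x - φ a) ∂ν) (∫ a, fderiv ℝ f (x - φ a) ∂ν) x := by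
    refine hasFDerivAt_integral_of_dominated_of_fderiv_le
      (F' := fun y a => fderiv ℝ f (y - φ a)) (bound := (φ ⁻¹' K).indicator (fun _ => M)) (ball_mem_nhds x one_pos)
      (Eventually.of_forall fun y => (int_comp ν hφ hf.continuous hc y).aestronglyMeasurable)
      (int_comp ν hφ hf.continuous hc x)
      (int_comp ν hφ hfc hcf x).aestronglyMeasurable ?_ ?_ ?_
    · refine Eventually.of_forall fun a y hy => ?_
      by_cases h : a ∈ φ ⁻¹' K
      · rw [indicator_of_mem h]
        exact hM _
      · rw [indicator_of_notMem h]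
        have h0 : fderiv ℝ f (y - φ a) = 0 := by
          by_contra hne
          apply h
          have h1 : y - φ a ∈ tsupport (fderiv ℝ f) := subset_tsupport _ hne
          show φ a ∈ K
          exact ⟨(y, y - φ a), ⟨ball_subset_closedBall hy, h1⟩, sub_sub_cancel _ _⟩
        rw [h0, norm_zero]
    · rw [integrable_indicator_iff hK'c.measurableSet]
      exact integrableOn_const hK'c.measure_lt_top.ne
    · refine Eventually.of_forall fun a y _ => ?_
      have h1 : HasFDerivAt f (fderiv ℝ f (y - φ a)) (y - φ a) :=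
        (hf.differentiable (by simp) _).hasFDerivAt
      have h2 : HasFDerivAt (fun y : E => y - φ a) (ContinuousLinearMap.id ℝ E) y :=
        (hasFDerivAt_id y).sub_const (φ a)
      have h3 := h1.comp y h2
      rw [ContinuousLinearMap.comp_id] at h3
      exact h3
  rw [key.fderiv, ContinuousLinearMap.integral_apply (int_comp ν hφ hfc hcf x)]

end

section
variable {E F : Type} [NormedAddCommGroup E] [NormedSpace ℝ E] [FiniteDimensional ℝ E]
  [NormedAddCommGroup F] [NormedSpace ℝ F] [FiniteDimensional ℝ F]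

theorem line_deriv (e : E) {f : E → F} (hf : ContDiff ℝ ∞ f) (x : E) (s : ℝ) :
    HasDerivAt (fun s : ℝ => f (x - s • e)) (-(fderiv ℝ f (x - s • e) e)) s := by
  have h1 : HasFDerivAt f (fderiv ℝ f (x - s • e)) (x - s • e) :=
    (hf.differentiable (by simp) _).hasFDerivAt
  have h2 : HasDerivAt (fun s : ℝ => x - s • e) (-e) s := by
    have := ((hasDerivAt_id s).smul_const e).const_sub x
    simpa using this
  have h3 := h1.comp_hasDerivAt s h2
  rw [map_neg] at h3
  exact h3

theorem line_smooth (e : E) {f : E → F} (hf : ContDiff ℝ ∞ f) (x : E) :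
    ContDiff ℝ ∞ (fun s : ℝ => f (x - s • e)) :=
  hf.comp (contDiff_const.sub (contDiff_id.smul contDiff_const))

theorem line_cpt {e : E} (he : e ≠ 0) {H : Type} [NormedAddCommGroup H] {f : E → H}
    (hc : HasCompactSupport f) (x : E) :
    HasCompactSupport (fun s : ℝ => f (x - s • e)) :=
  hc.comp_isClosedEmbedding (ce_sub (isClosedEmbedding_smul_left he) x)

theorem ray_fund {e : E} (he : e ≠ 0) {f : E → F} (hf : ContDiff ℝ ∞ f)
    (hc : HasCompactSupport f) (x : E) : T1 e (fun y => fderiv ℝ f y e) x = f x := by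
  unfold T1
  have h := (line_cpt he hc x).integral_Ioi_deriv_eq ((line_smooth e hf x).of_le (by simp)) 0
  have h2 : ∀ s : ℝ, deriv (fun s : ℝ => f (x - s • e)) s = -(fderiv ℝ f (x - s • e) e) :=
    fun s => (line_deriv e hf x s).deriv
  simp only [h2, integral_neg, zero_smul, sub_zero, neg_inj] at h
  exact h

theorem line_fund {e : E} (he : e ≠ 0) {f : E → F} (hf : ContDiff ℝ ∞ f)
    (hc : HasCompactSupport f) (x : E) : TL e (fun y => fderiv ℝ f y e) x = 0 := by
  unfold TL
  have hfc : Continuous (fun y => fderiv ℝ f y e) :=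
    (hf.continuous_fderiv (by simp)).clm_apply continuous_const
  have hcf : HasCompactSupport (fun y => fderiv ℝ f y e) :=
    (hc.fderiv ℝ).comp_left (g := fun l : E →L[ℝ] F => l e) rfl
  have i1 : Integrable (fun s : ℝ => fderiv ℝ f (x - s • e) e) :=
    int_comp volume (isClosedEmbedding_smul_left he) hfc hcf x
  have i2 : Integrable (fun s : ℝ => f (x - s • e)) :=
    int_comp volume (isClosedEmbedding_smul_left he) hf.continuous hc x
  have h := integral_eq_zero_of_hasDerivAt_of_integrable (fun s => line_deriv e hf x s) i1.neg i2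
  rw [integral_neg, neg_eq_zero] at h
  exact h

/-- the parametrization of the plane -/
theorem plane_ce {e e' : E} (h : LinearIndependent ℝ ![e, e']) :
    IsClosedEmbedding (fun p : ℝ × ℝ => p.1 • e' + p.2 • e) := by
  let L : ℝ × ℝ →ₗ[ℝ] E :=
    (LinearMap.toSpanSingleton ℝ E e').coprod (LinearMap.toSpanSingleton ℝ E e)
  have hL : ∀ p : ℝ × ℝ, L p = p.1 • e' + p.2 • e := fun p => by
    simp [L]
  have hk : LinearMap.ker L = ⊥ := by
    rw [LinearMap.ker_eq_bot']
    intro p hp
    rw [hL] at hp
    have h1 := LinearIndependent.pair_iff.1 h p.2 p.1 (by rw [add_comm]; exact hp)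
    exact Prod.ext h1.2 h1.1
  have := LinearMap.isClosedEmbedding_of_injective hk
  have e1 : (fun p : ℝ × ℝ => p.1 • e' + p.2 • e) = L := funext fun p => (hL p).symm
  rw [e1]
  exact this

theorem T2_eq {e e' : E} (h : LinearIndependent ℝ ![e, e']) {g : E → F} (hg : Continuous g)
    (hc : HasCompactSupport g) (x : E) :
    T2 e e' g x = ∫ p : ℝ × ℝ, g (x - (p.1 • e' + p.2 • e))
      ∂((volume.restrict (Ioi (0 : ℝ))).prod volume) := by
  have hi := int_comp ((volume.restrict (Ioi (0 : ℝ))).prod volume) (plane_ce h) hg hc x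
  rw [integral_prod _ hi]
  unfold T2
  simp only [sub_sub]

theorem li : StmtLI := by
  intro E F _ _ _ _ _ _ e e' f hli hf hc
  have he : e ≠ 0 := hli.ne_zero 0
  have he' : e' ≠ 0 := hli.ne_zero 1
  have hfd : ∀ u : E, Continuous (fun y => fderiv ℝ f y u) := fun u =>
    (hf.continuous_fderiv (by simp)).clm_apply continuous_const
  have hcd : ∀ u : E, HasCompactSupport (fun y => fderiv ℝ f y u) := fun u =>
    (hc.fderiv ℝ).comp_left (g := fun l : E →L[ℝ] F => l u) rfl
  refine ⟨⟨?_, ?_⟩, ⟨?_, ?_⟩, ⟨?_, ?_⟩, ?_, ?_, ?_, ?_⟩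
  · exact gen_smooth (volume.restrict (Ioi (0 : ℝ))) (isClosedEmbedding_smul_left he) hf hc
  · exact fun x u =>
      gen_deriv (volume.restrict (Ioi (0 : ℝ))) (isClosedEmbedding_smul_left he) hf hc x u
  · exact gen_smooth volume (isClosedEmbedding_smul_left he) hf hc
  · exact fun x u => gen_deriv volume (isClosedEmbedding_smul_left he) hf hc x u
  · have e1 : T2 e e' f = fun x => ∫ p : ℝ × ℝ, f (x - (p.1 • e' + p.2 • e))
        ∂((volume.restrict (Ioi (0 : ℝ))).prod volume) :=
      funext fun x => T2_eq hli hf.continuous hc x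
    rw [e1]
    exact gen_smooth _ (plane_ce hli) hf hc
  · intro x u
    have e1 : T2 e e' f = fun x => ∫ p : ℝ × ℝ, f (x - (p.1 • e' + p.2 • e))
        ∂((volume.restrict (Ioi (0 : ℝ))).prod volume) :=
      funext fun x => T2_eq hli hf.continuous hc x
    rw [e1, gen_deriv _ (plane_ce hli) hf hc x u, T2_eq hli (hfd u) (hcd u) x]
  · exact fun x => ray_fund he hf hc x
  · exact fun x => line_fund he hf hc x
  · intro x
    have h1 : T2 e e' (fun y => fderiv ℝ f y e') x =
        ∫ r : ℝ, ∫ s in Ioi (0 : ℝ), fderiv ℝ f (x - s • e' - r • e) e' := by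
      unfold T2
      refine integral_integral_swap ?_
      have hi := int_comp ((volume.restrict (Ioi (0 : ℝ))).prod volume) (plane_ce hli) (hfd e')
        (hcd e') x
      simp only [← sub_sub] at hi
      exact hi
    rw [h1]
    unfold TL
    refine integral_congr_ae (Eventually.of_forall fun r => ?_)
    have h2 := ray_fund he' hf hc (x - r • e)
    unfold T1 at h2
    refine Eq.trans ?_ h2
    show ∫ s in Ioi (0 : ℝ), fderiv ℝ f (x - s • e' - r • e) e' =
      ∫ s in Ioi (0 : ℝ), fderiv ℝ f (x - r • e - s • e') e'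
    simp only [sub_right_comm x]
  · intro x
    unfold T2
    have h1 : ∀ s : ℝ, ∫ r : ℝ, fderiv ℝ f (x - s • e' - r • e) e = 0 := fun s =>
      line_fund he hf hc (x - s • e')
    simp only [h1, integral_zero]

end

end Pool.Agent.Helper8.SZ
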